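import Pool.Agent.TH386.PS.Gen

set_option autoImplicit false
set_option linter.unusedSectionVars false

/-!
Weightings of bounded ratio: families in which every edge lies in few members, disjoint connected
spanning subgraphs, large cuts.
-/

namespace Pool.Agent.TH386.PS

open Finset
open Pool.Agent.TH399.CC
open Pool.Agent.Helper879.ECD (F2 sp inc cn)
open Pool.Agent.H126R2.CDC (MGraph packK)
open Pool.Agent.H126R2.NC (InCone InLat InIntCone cone_lat_of_intCone cr Spn spn_of_sp)

variable {V E : Type} [Fintype V] [DecidableEq V] [Fintype E] [DecidableEq E]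

lemma arith2 (k l a c pe μ : ℕ) (hl : 1 ≤ l) (hal : a ≤ l) (hak : a ≤ k)
    (hμ : μ ≤ 2 * l * c + 2 * l) (h : l * pe + 12 * k * l ≤ (2 * k - l) * μ) :
    pe + 8 * (k - a) ≤ 2 * (a * c) + 4 * ((k - a) * c) + 1 := by
  set K2 := 2 * k - l with hK2
  have h1 : l * (pe + 12 * k) ≤ l * (K2 * (2 * c + 2)) := by
    have h2 : K2 * μ ≤ K2 * (2 * l * c + 2 * l) := Nat.mul_le_mul_left _ hμ
    calc l * (pe + 12 * k) = l * pe + 12 * k * l := by ring
      _ ≤ K2 * μ := h
      _ ≤ K2 * (2 * l * c + 2 * l) := h2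
      _ = l * (K2 * (2 * c + 2)) := by ring
  have h3 : pe + 12 * k ≤ K2 * (2 * c + 2) := Nat.le_of_mul_le_mul_left h1 hl
  have h4 : K2 * (2 * c + 2) = 2 * (K2 * c) + 2 * K2 := by ring
  have h5 : K2 ≤ 2 * k - a := by omega
  have h6 : K2 * c ≤ (2 * k - a) * c := Nat.mul_le_mul_right _ h5
  obtain ⟨b, rfl⟩ : ∃ b, k = a + b := ⟨k - a, by omega⟩
  have h7 : a + b - a = b := by omega
  have h8 : 2 * (a + b) - a = a + 2 * b := by omega
  rw [h7]
  rw [h8] at h6
  have h9 : (a + 2 * b) * c = a * c + 2 * (b * c) := by ring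
  omega

/-- bounded ratio: a family in which every edge lies in at most `l` members -/
theorem cover_ratio (G : MGraph V E) {ι : Type} [Fintype ι] [DecidableEq ι] (H : ι → Finset E)
    (l : ℕ) (hl : 1 ≤ l)
    (hH : ∀ i, ∀ B : Finset V, (bdry G univ B).Nonempty → 2 ≤ (bdry G (H i) B).card)
    (hmul : ∀ e, (univ.filter (fun i => e ∈ H i)).card ≤ l) (p : E → ℕ)
    (hr : ∀ e f, l * p e + 12 * Fintype.card ι * l ≤ (2 * Fintype.card ι - l) * p f) :
    InIntCone G p ↔ InLat G p := by
  refine ⟨fun h => (cone_lat_of_intCone G p h).2, fun hlat => ?_⟩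
  by_cases hE : IsEmpty E
  · exact ⟨0, by simp, fun e => (hE.false e).elim⟩
  rw [not_isEmpty_iff] at hE
  obtain ⟨e1, -, he1⟩ := Finset.exists_min_image (univ : Finset E) p (Finset.univ_nonempty)
  set μ := p e1 with hμ
  have hle : ∀ e, μ ≤ p e := fun e => he1 e (Finset.mem_univ _)
  have h2l : 0 < 2 * l := by omega
  have hc1 : 2 * l * (μ / (2 * l)) ≤ μ := Nat.mul_div_le μ (2 * l)
  have hc2 : μ ≤ 2 * l * (μ / (2 * l)) + 2 * l := (Nat.lt_mul_div_succ μ h2l).le.trans
    (le_of_eq (by ring))
  set c := μ / (2 * l) with hc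
  refine cover_family G H (fun _ => c) p hH ?_ ?_ hlat
  · intro e
    rw [Finset.sum_const, smul_eq_mul]
    have h1 : (univ.filter (fun i => e ∈ H i)).card * c ≤ l * c := Nat.mul_le_mul_right _ (hmul e)
    have h2 : 2 * l * c = 2 * (l * c) := by ring
    have h3 := hle e
    omega
  · intro e
    have h1 := Finset.card_filter_add_card_filter_not (s := (univ : Finset ι))
      (fun i => e ∈ H i)
    rw [Finset.card_univ] at h1
    have h2 : (univ.filter (fun i => e ∉ H i)).card =
        Fintype.card ι - (univ.filter (fun i => e ∈ H i)).card := by omega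
    rw [Finset.sum_const, Finset.sum_const, smul_eq_mul, smul_eq_mul, h2]
    exact arith2 (Fintype.card ι) l _ c (p e) μ hl (hmul e) (by omega) hc2 (hr e e1)

/-- bounded ratio: disjoint connected spanning subgraphs -/
theorem cover_trees (G : MGraph V E) (κ : ℕ) (hκ : 2 ≤ κ) (T : Fin κ → Finset E)
    (hT : ∀ i, ∀ B : Finset V, (bdry G univ B).Nonempty → (bdry G (T i) B).Nonempty)
    (hd : ∀ i j, i ≠ j → Disjoint (T i) (T j)) (p : E → ℕ)
    (hr : ∀ e f, p e + 12 * κ ≤ (κ - 1) * p f) :
    InIntCone G p ↔ InLat G p := by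
  classical
  obtain ⟨m, rfl⟩ : ∃ m, κ = m + 2 := ⟨κ - 2, by omega⟩
  have hne : ∀ i : Fin (m + 2), i + 1 ≠ i := by
    intro i h
    have h1 : (1 : Fin (m + 2)) = 0 := by
      have h2 : i + 1 = i + 0 := by rw [h, add_zero]
      exact add_left_cancel h2
    exact one_ne_zero h1
  refine cover_ratio G (fun i : Fin (m + 2) => T i ∪ T (i + 1)) 2 (by norm_num) ?_ ?_ p ?_
  · intro i B hB
    obtain ⟨e, he⟩ := hT i B hB
    obtain ⟨f, hf⟩ := hT (i + 1) B hB
    have he' := Finset.mem_filter.1 he
    have hf' := Finset.mem_filter.1 hf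
    have hef : e ≠ f := by
      rintro rfl
      exact Finset.disjoint_left.1 (hd i (i + 1) (hne i).symm) he'.1 hf'.1
    have h1 : ({e, f} : Finset E) ⊆ bdry G (T i ∪ T (i + 1)) B := by
      intro g hg
      rw [Finset.mem_insert, Finset.mem_singleton] at hg
      rcases hg with rfl | rfl
      · exact Finset.mem_filter.2 ⟨Finset.mem_union_left _ he'.1, he'.2⟩
      · exact Finset.mem_filter.2 ⟨Finset.mem_union_right _ hf'.1, hf'.2⟩
    have h2 := Finset.card_le_card h1
    rw [Finset.card_pair hef] at h2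
    exact h2
  · intro e
    by_cases h : ∃ j, e ∈ T j
    · obtain ⟨j, hj⟩ := h
      have h1 : ∀ i, e ∈ T i → i = j := by
        intro i hi
        by_contra hij
        exact Finset.disjoint_left.1 (hd i j hij) hi hj
      have h2 : univ.filter (fun i : Fin (m + 2) => e ∈ T i ∪ T (i + 1)) ⊆ {j, j - 1} := by
        intro i hi
        rw [Finset.mem_filter, Finset.mem_union] at hi
        rw [Finset.mem_insert, Finset.mem_singleton]
        rcases hi.2 with h3 | h3
        · exact Or.inl (h1 i h3)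
        · right
          rw [← h1 _ h3]
          abel
      exact (Finset.card_le_card h2).trans Finset.card_le_two
    · have h2 : univ.filter (fun i : Fin (m + 2) => e ∈ T i ∪ T (i + 1)) = ∅ := by
        rw [Finset.filter_eq_empty_iff]
        intro i _ hi
        rw [Finset.mem_union] at hi
        rcases hi with h3 | h3
        · exact h ⟨_, h3⟩
        · exact h ⟨_, h3⟩
      rw [h2]
      simp
  · intro e f
    have h1 := hr e f
    rw [Fintype.card_fin]
    have h2 : 2 * (m + 2) - 2 = 2 * (m + 2 - 1) := by omega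
    rw [h2, mul_assoc 2 (m + 2 - 1) (p f)]
    omega

open Classical in
/-- disjoint spanning sets in graphs whose nonempty cuts have at least `2 κ` edges -/
lemma exists_trees (κ : ℕ) (a b : E → V)
    (h4 : ∀ X : Finset V, cn a b univ X = 0 ∨ 2 * κ ≤ cn a b univ X) :
    ∃ T : Fin κ → Finset E, (∀ i j, i ≠ j → Disjoint (T i) (T j)) ∧ ∀ i, Spn a b (T i) := by
  have hrank : ∀ R : Finset E, Fintype.card (Fin κ) *
      Module.finrank F2 (sp F2 (inc a b) univ) ≤
      Fintype.card (Fin κ) * Module.finrank F2 (sp F2 (inc a b) R) +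
        (univ.filter (fun e => ¬ inc a b e ∈ sp F2 (inc a b) R)).card := by
    intro R
    have h1 := rank_condK (2 * κ) a b h4 (sp F2 (inc a b) R)
    rw [Fintype.card_fin]
    rw [mul_assoc, mul_assoc] at h1
    omega
  obtain ⟨I, hd, hI⟩ := packK (K := Fin κ) (F := F2) (x := inc a b) hrank
  exact ⟨I, hd, fun i => spn_of_sp a b _ (hI i)⟩

/-- bounded ratio: large cuts -/
theorem cover_cuts (G : MGraph V E) (κ : ℕ) (hκ : 2 ≤ κ)
    (hcut : ∀ B : Finset V, (bdry G univ B).Nonempty → 2 * κ ≤ (bdry G univ B).card) (p : E → ℕ)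
    (hr : ∀ e f, p e + 12 * κ ≤ (κ - 1) * p f) :
    InIntCone G p ↔ InLat G p := by
  classical
  obtain ⟨v, hv⟩ := G.exists_halves
  obtain ⟨T, hd, hT⟩ := exists_trees κ (fun e => v (e, false)) (fun e => v (e, true)) (by
    intro X
    rw [← bdry_card G v hv univ X]
    by_cases h : (bdry G univ X).Nonempty
    · exact Or.inr (hcut X h)
    · left
      rw [Finset.not_nonempty_iff_eq_empty] at h
      rw [h, Finset.card_empty])
  refine cover_trees G κ hκ T ?_ hd p hr
  intro i B hB
  rw [← Finset.card_pos, bdry_card G v hv (T i) B]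
  by_contra h
  have h0 : cn (fun e => v (e, false)) (fun e => v (e, true)) (T i) B = 0 := by omega
  unfold cn at h0
  rw [Finset.card_eq_zero, Finset.filter_eq_empty_iff] at h0
  have h1 := hT i B (fun t ht => h0 ht)
  rw [← Finset.card_pos, bdry_card G v hv univ B] at hB
  unfold cn at hB
  obtain ⟨e, he⟩ := Finset.card_pos.1 hB
  exact h1 e (Finset.mem_filter.1 he).2

end Pool.Agent.TH386.PS
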