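import Pool.Agent.TH399.CC.Span
import Pool.Agent.TH399.CC.Final

set_option autoImplicit false
set_option linter.unusedSectionVars false

/-!
Circuit covers from families of spanning subgraphs that meet every nonempty cut at least twice.
-/

namespace Pool.Agent.TH386.PS

open Finset
open Pool.Agent.TH399.CC
open Pool.Agent.Helper879.ECD (F2 IsFlow f2_add_self f2_cases cn)
open Pool.Agent.H126R2.CDC (MGraph)
open Pool.Agent.H126R2.NC (TC rep InCone InLat InIntCone cone_lat_of_intCone cover_minus
  f2_ne cr)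

variable {V E : Type} [Fintype V] [DecidableEq V] [Fintype E] [DecidableEq E]

lemma exists_quota {ι : Type} [DecidableEq ι] (S : Finset ι) (n : ι → ℕ) :
    ∀ s : ℕ, s ≤ ∑ i ∈ S, n i → ∃ u : ι → ℕ, (∀ i, u i ≤ n i) ∧ ∑ i ∈ S, u i = s := by
  induction S using Finset.induction_on with
  | empty =>
    intro s hs
    rw [Finset.sum_empty] at hs
    refine ⟨fun _ => 0, fun i => Nat.zero_le _, ?_⟩
    rw [Finset.sum_empty]
    omega
  | insert i S hi ih =>
    intro s hs
    rw [Finset.sum_insert hi] at hs
    obtain ⟨u, hu1, hu2⟩ := ih (s - min s (n i)) (by omega)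
    refine ⟨fun j => if j = i then min s (n i) else u j, ?_, ?_⟩
    · intro j
      by_cases h : j = i
      · simp only [h, if_true]
        exact min_le_right _ _
      · simp only [h, if_false]
        exact hu1 j
    · rw [Finset.sum_insert hi]
      simp only [if_true]
      have h1 : ∑ j ∈ S, (if j = i then min s (n i) else u j) = ∑ j ∈ S, u j := by
        apply Finset.sum_congr rfl
        intro j hj
        have h2 : j ≠ i := fun h => hi (h ▸ hj)
        simp only [h2, if_false]
      rw [h1, hu2]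
      omega

lemma hcnt : ∀ (n m k : ℕ), k ≤ n →
    ∑ t ∈ Finset.range n, (if t < k then m else 0) = m * k := by
  intro n m k hk
  rw [← Finset.sum_filter, Finset.sum_const, smul_eq_mul, mul_comm]
  congr 1
  have h7 : (Finset.range n).filter (fun t => t < k) = Finset.range k := by
    ext t
    rw [Finset.mem_filter, Finset.mem_range, Finset.mem_range]
    omega
  rw [h7, Finset.card_range]

/-- the two kinds of rounds for one subgraph -/
lemma rounds (G : MGraph V E) (H : Finset E)
    (hH : ∀ B : Finset V, (bdry G univ B).Nonempty → 2 ≤ (bdry G H B).card) (u : E → ℕ) :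
    (∀ t : ℕ, InIntCone G (fun e => if e ∈ H then 4 else (if t < u e then 8 else 0))) ∧
    (∀ t : ℕ, InIntCone G (fun e => if e ∈ H then 2 else (if t < u e then 2 else 0))) := by
  classical
  obtain ⟨v, hv⟩ := G.exists_halves
  set a : E → V := fun e => v (e, false) with ha
  set b : E → V := fun e => v (e, true) with hb
  have hspan : ∀ B : Finset V, ∀ e, cr a b B e → 2 ≤ cn a b H B := by
    intro B e he
    rw [← bdry_card G v hv H B]
    apply hH
    rw [← Finset.card_pos, bdry_card G v hv univ B]
    unfold cn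
    rw [Finset.card_pos]
    exact ⟨e, Finset.mem_filter.2 ⟨Finset.mem_univ _, he⟩⟩
  have htc : ∀ e, e ∉ H → ∀ f, TC a b e f → f = e := by
    intro e he f hef
    by_contra hne
    obtain ⟨z, hz⟩ := hef
    have hcr : ∀ h, cr a b (univ.filter (fun w => z w = 1)) h ↔ (h = e ∨ h = f) := by
      intro h
      have h1 : cr a b (univ.filter (fun w => z w = 1)) h ↔ z (a h) + z (b h) = 1 := by
        simp only [cr, Finset.mem_filter, Finset.mem_univ, true_and]
        exact f2_ne
      rw [h1, hz h]
      by_cases h2 : h = e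
      · have h3 : ¬ h = f := fun h3 => hne (h3.symm.trans h2)
        simp [h2, Ne.symm hne]
      · by_cases h3 : h = f
        · simp [h3, hne]
        · simp [h2, h3]
    have h1 := hspan (univ.filter (fun w => z w = 1)) e ((hcr e).2 (Or.inl rfl))
    have h2 : cn a b H (univ.filter (fun w => z w = 1)) ≤ ({f} : Finset E).card := by
      unfold cn
      apply Finset.card_le_card
      intro h hh
      rw [Finset.mem_filter] at hh
      rw [Finset.mem_singleton]
      rcases (hcr h).1 hh.2 with h3 | h3
      · exact absurd (h3 ▸ hh.1) he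
      · exact h3
    rw [Finset.card_singleton] at h2
    omega
  have hdel : ∀ X' : Finset E, (∀ e ∈ X', e ∉ H) → ∀ B : Finset V, cn a b (univ \ X') B ≠ 1 := by
    intro X' hX' B h1
    have h2 : cn a b H B ≤ cn a b (univ \ X') B := by
      unfold cn
      apply Finset.card_le_card
      intro e he
      rw [Finset.mem_filter] at he ⊢
      refine ⟨?_, he.2⟩
      rw [Finset.mem_sdiff]
      exact ⟨Finset.mem_univ _, fun h => hX' e h he.1⟩
    obtain ⟨e, he⟩ := Finset.card_pos.1 (show 0 < ((univ \ X').filter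
      (fun e => ¬ (a e ∈ B ↔ b e ∈ B))).card by unfold cn at h1; omega)
    have h3 := hspan B e (Finset.mem_filter.1 he).2
    omega
  refine ⟨fun t => ?_, fun t => ?_⟩
  · obtain ⟨S, hS1, hS2⟩ := block G v hv (univ.filter (fun e => e ∉ H))
      (univ.filter (fun e => e ∉ H ∧ t < u e)) (by
        intro e he f hef
        rw [Finset.mem_filter] at he
        rw [htc e he.2 f hef]
        exact Finset.mem_filter.2 he) (by
        intro e he f hef
        rw [Finset.mem_filter] at he
        rw [htc e he.2.1 f hef]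
        exact Finset.mem_filter.2 he) (by
        intro X' hX' _ B
        exact hdel X' (fun e he => (Finset.mem_filter.1 (hX' he)).2) B)
    refine ⟨S, hS1, fun e => ?_⟩
    rw [hS2 e]
    simp only [Finset.mem_filter, Finset.mem_univ, true_and]
    by_cases h : e ∈ H <;> simp [h]
  · obtain ⟨S, hS1, hS2⟩ := cover_minus G v hv
      (univ.filter (fun e => e ∉ H ∧ ¬ t < u e))
      (hdel _ (fun e he => (Finset.mem_filter.1 he).2.1))
    refine ⟨S, hS1, fun e => ?_⟩
    rw [hS2 e]
    simp only [Finset.mem_filter, Finset.mem_univ, true_and]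
    by_cases h1 : e ∈ H
    · simp [h1]
    · by_cases h2 : t < u e <;> simp [h1, h2]

/-- **Families.** A weighting between `x` and `2 Λ - x`, up to an additive constant, where `x` is a
combination with total coefficient `Λ` of spanning subgraphs that meet every nonempty cut twice. -/
theorem cover_family (G : MGraph V E) {ι : Type} [Fintype ι] [DecidableEq ι] (H : ι → Finset E)
    (ν : ι → ℕ) (p : E → ℕ)
    (hH : ∀ i, ∀ B : Finset V, (bdry G univ B).Nonempty → 2 ≤ (bdry G (H i) B).card)
    (h1 : ∀ e, 2 * ∑ i ∈ univ.filter (fun i => e ∈ H i), ν i ≤ p e)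
    (h2 : ∀ e, p e + 8 * (univ.filter (fun i => e ∉ H i)).card ≤
      2 * ∑ i ∈ univ.filter (fun i => e ∈ H i), ν i +
        4 * ∑ i ∈ univ.filter (fun i => e ∉ H i), ν i + 1)
    (hlat : InLat G p) : InIntCone G p := by
  classical
  let n : ι → ℕ := fun i => (ν i - 3) / 2
  let m : ι → ℕ := fun i => ν i - 2 * ((ν i - 3) / 2)
  have hnm : ∀ i, ν i = 2 * n i + m i := fun i => by
    show ν i = 2 * ((ν i - 3) / 2) + (ν i - 2 * ((ν i - 3) / 2))
    omega
  have hm4 : ∀ i, m i ≤ 4 := fun i => by
    show ν i - 2 * ((ν i - 3) / 2) ≤ 4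
    omega
  have hm3 : ∀ i, n i ≠ 0 → 3 ≤ m i := fun i => by
    show (ν i - 3) / 2 ≠ 0 → 3 ≤ ν i - 2 * ((ν i - 3) / 2)
    omega
  let q : E → ℕ := fun e => p e / 2
  have hst : ∀ e, ∃ u w : ι → ℕ, (∀ i, u i ≤ n i) ∧ (∀ i, w i ≤ m i) ∧
      q e = ∑ i ∈ univ.filter (fun i => e ∈ H i), ν i +
        4 * ∑ i ∈ univ.filter (fun i => e ∉ H i), u i +
        ∑ i ∈ univ.filter (fun i => e ∉ H i), w i := by
    intro e
    set A := univ.filter (fun i => e ∉ H i) with hA
    set X := ∑ i ∈ univ.filter (fun i => e ∈ H i), ν i with hX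
    have hY : ∑ i ∈ A, ν i = 2 * ∑ i ∈ A, n i + ∑ i ∈ A, m i := by
      rw [Finset.mul_sum, ← Finset.sum_add_distrib]
      exact Finset.sum_congr rfl (fun i _ => hnm i)
    have hM : ∑ i ∈ A, m i ≤ 4 * A.card := by
      have := Finset.sum_le_card_nsmul A m 4 (fun i _ => hm4 i)
      rw [smul_eq_mul, mul_comm] at this
      exact this
    have hS : 3 ≤ ∑ i ∈ A, m i ∨ ∑ i ∈ A, n i = 0 := by
      by_cases h : ∑ i ∈ A, n i = 0
      · exact Or.inr h
      · left
        obtain ⟨i, hi, hi0⟩ := Finset.exists_ne_zero_of_sum_ne_zero h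
        exact (hm3 i hi0).trans (Finset.single_le_sum (f := m) (fun _ _ => Nat.zero_le _) hi)
    have h1e : 2 * X ≤ p e := h1 e
    have h2e : p e + 8 * A.card ≤ 2 * X + 4 * ∑ i ∈ A, ν i + 1 := h2 e
    have hq2 : q e = p e / 2 := rfl
    obtain ⟨s, t, hs, ht, hst⟩ : ∃ s t : ℕ, s ≤ ∑ i ∈ A, n i ∧ t ≤ ∑ i ∈ A, m i ∧
        q e = X + 4 * s + t := by
      refine ⟨min (∑ i ∈ A, n i) ((q e - X) / 4), (q e - X) -
        4 * min (∑ i ∈ A, n i) ((q e - X) / 4), min_le_left _ _, ?_, ?_⟩
      · omega
      · omega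
    obtain ⟨u, hu1, hu2⟩ := exists_quota A n s hs
    obtain ⟨w, hw1, hw2⟩ := exists_quota A m t ht
    exact ⟨u, w, hu1, hw1, by rw [hu2, hw2]; exact hst⟩
  choose u w hu hw huw using hst
  have hA' := intCone_sum G (univ : Finset ι) _ (fun i _ =>
    intCone_sum G (Finset.range (n i)) _ (fun t _ =>
      (rounds G (H i) (hH i) (fun e => u e i)).1 t))
  have hB' := intCone_sum G (univ : Finset ι) _ (fun i _ =>
    intCone_sum G (Finset.range (m i)) _ (fun t _ =>
      (rounds G (H i) (hH i) (fun e => w e i)).2 t))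
  refine intCone_add G (intCone_add G hA' hB' (fun e => rfl)) (odd_part G p hlat) ?_
  intro e
  show p e = ∑ i : ι, ∑ t ∈ Finset.range (n i), (if e ∈ H i then 4 else
      (if t < u e i then 8 else 0)) +
    ∑ i : ι, ∑ t ∈ Finset.range (m i), (if e ∈ H i then 2 else
      (if t < w e i then 2 else 0)) + p e % 2
  have hpe : p e = 2 * q e + p e % 2 := (Nat.div_add_mod (p e) 2).symm
  have e1 : ∀ i ∈ (univ : Finset ι), ∑ t ∈ Finset.range (n i), (if e ∈ H i then 4 else
      (if t < u e i then 8 else 0)) = (if e ∈ H i then 4 * n i else 8 * u e i) := by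
    intro i _
    by_cases h : e ∈ H i
    · simp only [h, if_true, Finset.sum_const, Finset.card_range, smul_eq_mul]
      exact mul_comm _ _
    · simp only [h, if_false]
      exact hcnt _ _ _ (hu e i)
  have e2 : ∀ i ∈ (univ : Finset ι), ∑ t ∈ Finset.range (m i), (if e ∈ H i then 2 else
      (if t < w e i then 2 else 0)) = (if e ∈ H i then 2 * m i else 2 * w e i) := by
    intro i _
    by_cases h : e ∈ H i
    · simp only [h, if_true, Finset.sum_const, Finset.card_range, smul_eq_mul]
      exact mul_comm _ _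
    · simp only [h, if_false]
      exact hcnt _ _ _ (hw e i)
  rw [Finset.sum_congr rfl e1, Finset.sum_congr rfl e2, Finset.sum_ite, Finset.sum_ite]
  have h3 := huw e
  have h4 : ∑ i ∈ univ.filter (fun i => e ∈ H i), ν i =
      2 * ∑ i ∈ univ.filter (fun i => e ∈ H i), n i + ∑ i ∈ univ.filter (fun i => e ∈ H i), m i := by
    rw [Finset.mul_sum, ← Finset.sum_add_distrib]
    exact Finset.sum_congr rfl (fun i _ => hnm i)
  simp only [← Finset.mul_sum]
  omega

end Pool.Agent.TH386.PS
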